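import Pool.Agent.H59.L.S8.Y506.FF.Stm

/-!
# Project FF, job DET: lower bound for the determinant of `Aᵀ diag(s) A`
-/

set_option autoImplicit false

namespace Pool.Agent.Y362.FF

open Matrix

theorem detm : Pool.Agent.Y506.FF.S_DET := by
  intro ι _ _ d A hA s hs
  have hD : (A.transpose * Matrix.diagonal s * A).IsHermitian := by
    unfold Matrix.IsHermitian
    rw [Matrix.conjTranspose_eq_transpose_of_trivial, Matrix.transpose_mul, Matrix.transpose_mul,
      Matrix.diagonal_transpose, Matrix.transpose_transpose, Matrix.mul_assoc]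
  obtain ⟨U, hU⟩ : ∃ U : Matrix (Fin d) (Fin d) ℝ, U = (hD.eigenvectorUnitary : Matrix _ _ ℝ) :=
    ⟨_, rfl⟩
  have hU1 : U.transpose * U = 1 := by
    have := Unitary.coe_star_mul_self hD.eigenvectorUnitary
    rw [← hU] at this
    rwa [Matrix.star_eq_conjTranspose, Matrix.conjTranspose_eq_transpose_of_trivial] at this
  have hU2 : U * U.transpose = 1 := mul_eq_one_comm.mp hU1
  obtain ⟨l, hl⟩ : ∃ l : Fin d → ℝ, l = hD.eigenvalues := ⟨_, rfl⟩
  have hsp : A.transpose * Matrix.diagonal s * A =
      U * Matrix.diagonal l * U.transpose := by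
    have := hD.spectral_theorem
    rw [Unitary.conjStarAlgAut_apply, ← hU, Matrix.star_eq_conjTranspose,
      Matrix.conjTranspose_eq_transpose_of_trivial] at this
    rw [hl]
    exact this
  have hdet : (A.transpose * Matrix.diagonal s * A).det = ∏ k, l k := by
    rw [hl, hD.det_eq_prod_eigenvalues]
    simp
  clear hl
  obtain ⟨W, hW⟩ : ∃ W : Matrix ι (Fin d) ℝ, W = A * U := ⟨_, rfl⟩
  have h1 : W.transpose * W = 1 := by
    rw [hW, Matrix.transpose_mul, Matrix.mul_assoc, ← Matrix.mul_assoc A.transpose, hA,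
      Matrix.one_mul, hU1]
  have h2 : W * W.transpose = A * A.transpose := by
    rw [hW, Matrix.transpose_mul, Matrix.mul_assoc, ← Matrix.mul_assoc U, hU2, Matrix.one_mul]
  have h3 : W.transpose * Matrix.diagonal s * W = Matrix.diagonal l := by
    have e : W.transpose * Matrix.diagonal s * W =
        U.transpose * (A.transpose * Matrix.diagonal s * A) * U := by
      rw [hW, Matrix.transpose_mul]
      simp only [Matrix.mul_assoc]
    rw [e, hsp]
    calc U.transpose * (U * Matrix.diagonal l * U.transpose) * U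
        = (U.transpose * U) * Matrix.diagonal l * (U.transpose * U) := by
          simp only [Matrix.mul_assoc]
      _ = _ := by rw [hU1, Matrix.one_mul, Matrix.mul_one]
  have g1 : ∀ k, ∑ i, W i k ^ 2 = 1 := by
    intro k
    have := congrFun (congrFun h1 k) k
    rw [Matrix.mul_apply, Matrix.one_apply_eq] at this
    rw [← this]
    exact Finset.sum_congr rfl fun i _ => by rw [Matrix.transpose_apply, sq]
  have g2 : ∀ i, ∑ k, W i k ^ 2 = ∑ j, A i j ^ 2 := by
    intro i
    have := congrFun (congrFun h2 i) i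
    rw [Matrix.mul_apply, Matrix.mul_apply] at this
    simpa only [Matrix.transpose_apply, ← sq] using this
  have g3 : ∀ k, l k = ∑ i, W i k ^ 2 * s i := by
    intro k
    have := congrFun (congrFun h3 k) k
    rw [Matrix.diagonal_apply_eq, Matrix.mul_assoc, Matrix.mul_apply] at this
    rw [← this]
    refine Finset.sum_congr rfl fun i _ => ?_
    rw [Matrix.transpose_apply, Matrix.diagonal_mul]
    ring
  rw [hdet]
  -- pointwise
  have g4 : ∀ k, ∏ i, s i ^ (W i k ^ 2) ≤ l k := by
    intro k
    rw [g3]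
    exact Real.geom_mean_le_arith_mean_weighted Finset.univ (fun i => W i k ^ 2) s
      (fun i _ => sq_nonneg _) (g1 k) (fun i _ => (hs i).le)
  calc ∏ i, s i ^ (∑ j, A i j ^ 2) = ∏ i, ∏ k, s i ^ (W i k ^ 2) := by
        refine Finset.prod_congr rfl fun i _ => ?_
        rw [← g2, Real.rpow_sum_of_pos (hs i)]
    _ = ∏ k, ∏ i, s i ^ (W i k ^ 2) := Finset.prod_comm
    _ ≤ ∏ k, l k := Finset.prod_le_prod (fun k _ =>
        Finset.prod_nonneg fun i _ => Real.rpow_nonneg (hs i).le _) fun k _ => g4 k

end Pool.Agent.Y362.FF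

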